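import Pool.Agent.Helper11.EA3.Defs3
import Pool.Agent.Helper5.RM.NET1

/-!
# Project EA, part 3, block V6 (`near_count`): few near pairs
-/

set_option autoImplicit false

namespace Pool.Agent.Helper51.EA

open Finset Pool.Agent.Helper5.RM Pool.Agent.Helper5.RS

/-- a linear congruence `c + b j ≡ 0 (mod M)` has at most `b` solutions `j < M` -/
lemma v6_lin (M : ℕ) (hM : 1 ≤ M) (b : ℕ) (hb : 1 ≤ b) (c : ℤ) :
    ((range M).filter (fun j : ℕ => (M : ℤ) ∣ c + b * j)).card ≤ b := by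
  classical
  have hM0 : (0 : ℤ) < M := by exact_mod_cast (by omega : 0 < M)
  have hb0 : (0 : ℤ) < b := by exact_mod_cast (by omega : 0 < b)
  set k : ℤ := -((-c) / (M : ℤ)) with hk
  have hkc : c ≤ M * k := by
    have h1 : (M : ℤ) * ((-c) / (M : ℤ)) ≤ -c := Int.mul_ediv_self_le hM0.ne'
    rw [hk, mul_neg]; linarith
  have h2 : ((range M).filter (fun j : ℕ => (M : ℤ) ∣ c + b * j)).card ≤ (Finset.Ico k (k + b)).card := by
    refine Finset.card_le_card_of_injOn (fun j : ℕ => (c + b * j) / (M : ℤ)) ?_ ?_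
    · intro j hj
      rw [Finset.mem_coe, mem_filter, mem_range] at hj
      obtain ⟨hj1, t, ht⟩ := hj
      have ht' : (c + b * j) / (M : ℤ) = t := by rw [ht]; exact Int.mul_ediv_cancel_left _ hM0.ne'
      show (c + b * j) / (M : ℤ) ∈ ((Finset.Ico k (k + b) : Finset ℤ) : Set ℤ)
      rw [ht', Finset.coe_Ico, Set.mem_Ico]
      constructor
      · have h3 : -t ≤ (-c) / (M : ℤ) := by
          rw [Int.le_ediv_iff_mul_le hM0]
          have : (0 : ℤ) ≤ b * j := by positivity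
          nlinarith
        rw [hk]; linarith
      · have h3 : (j : ℤ) < M := by exact_mod_cast hj1
        have h4 : (M : ℤ) * t < M * (k + b) := by
          rw [← ht, mul_add]
          have : (b : ℤ) * j < b * M := mul_lt_mul_of_pos_left h3 hb0
          nlinarith
        exact lt_of_mul_lt_mul_left h4 hM0.le
    · intro j hj j' hj' hjj
      rw [Finset.mem_coe, mem_filter, mem_range] at hj hj'
      obtain ⟨-, t, ht⟩ := hj
      obtain ⟨-, t', ht'⟩ := hj'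
      have h3 : (c + b * j) / (M : ℤ) = t := by rw [ht]; exact Int.mul_ediv_cancel_left _ hM0.ne'
      have h4 : (c + b * j') / (M : ℤ) = t' := by rw [ht']; exact Int.mul_ediv_cancel_left _ hM0.ne'
      have h5 : t = t' := by
        have : (c + b * j) / (M : ℤ) = (c + b * j') / (M : ℤ) := hjj
        rw [h3, h4] at this
        exact this
      have h6 : (b : ℤ) * j = b * j' := by
        have h8 : c + b * j = c + b * j' := by rw [ht, ht', h5]
        linarith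
      have h7 : (j : ℤ) = j' := mul_left_cancel₀ hb0.ne' h6
      exact_mod_cast h7
  refine h2.trans ?_
  rw [Int.card_Ico]
  have : k + (b : ℤ) - k = b := by ring
  rw [this]
  simp

/-- a point which is not far from the integers lies close to a grid point with small `DD` -/
lemma v6_near (N : ℕ) (hN : 1 ≤ N) (D : ℝ) (hDN : D ≤ N) (c : ℤ) (x : ℝ) (hx : x = (c : ℝ) / (4 * N : ℕ)) (h : ¬ Far N x D) :
    ∃ i ∈ (range (4 * N)).filter (fun j : ℕ => DD (4 * N) ((j : ℝ) / (4 * N : ℕ)) < 4 * D),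
      ((4 * N : ℕ) : ℤ) ∣ c - i := by
  unfold Far at h
  push Not at h
  obtain ⟨m, hm1, hm2⟩ := h
  have hN0 : (0 : ℝ) < N := by exact_mod_cast (by omega : 0 < N)
  have hM0 : (0 : ℤ) < ((4 * N : ℕ) : ℤ) := by exact_mod_cast (by omega : 0 < 4 * N)
  have hMr : (0 : ℝ) < ((4 * N : ℕ) : ℝ) := by exact_mod_cast (by omega : 0 < 4 * N)
  set i : ℤ := c % ((4 * N : ℕ) : ℤ) with hi
  have hi0 : 0 ≤ i := Int.emod_nonneg _ hM0.ne'
  have hi1 : i < ((4 * N : ℕ) : ℤ) := Int.emod_lt_of_pos _ hM0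
  obtain ⟨t, ht⟩ : ∃ t : ℤ, c = i + ((4 * N : ℕ) : ℤ) * t := ⟨c / ((4 * N : ℕ) : ℤ), (Int.emod_add_mul_ediv _ _).symm⟩
  have hin : ((i.toNat : ℕ) : ℤ) = i := Int.toNat_of_nonneg hi0
  have hir : ((i.toNat : ℕ) : ℝ) = (i : ℝ) := by exact_mod_cast congrArg (fun z : ℤ => (z : ℝ)) hin
  have hnd : nd ((m : ℝ) * x) = nd ((m : ℝ) * (((i.toNat : ℕ) : ℝ) / (4 * N : ℕ))) := by
    have h1 : (m : ℝ) * x = (m : ℝ) * (((i.toNat : ℕ) : ℝ) / (4 * N : ℕ)) + (((m : ℤ) * t : ℤ) : ℝ) := by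
      rw [hx, hir, ht]
      push_cast
      field_simp
    rw [h1, nd_add_int]
  have hnn := nd_nonneg ((m : ℝ) * x)
  have hmD : (m : ℝ) < D := by nlinarith
  have hm4 : m ≤ 4 * N := by
    have : (m : ℝ) < N := hmD.trans_le hDN
    have : m < N := by exact_mod_cast this
    omega
  refine ⟨i.toNat, ?_, ?_⟩
  · rw [mem_filter, mem_range]
    refine ⟨by zify; rw [hin]; exact_mod_cast hi1, ?_⟩
    have hne : (Finset.Icc 1 (4 * N)).Nonempty := ⟨1, Finset.mem_Icc.2 ⟨le_refl 1, by omega⟩⟩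
    unfold DD
    rw [dif_pos hne]
    refine (Finset.inf'_le _ (Finset.mem_Icc.2 ⟨hm1, hm4⟩)).trans_lt ?_
    rw [← hnd]
    push_cast
    have hm0 : (0 : ℝ) ≤ m := Nat.cast_nonneg m
    nlinarith
  · rw [hin]
    exact ⟨t, by rw [ht]; ring⟩

open Classical in
/-- V6. Few near pairs. -/
theorem near_count (N A0 : ℕ) (hN : 1 ≤ N) (D : ℝ) (hD : 1 ≤ D) (hDN : D ≤ N) (j : ℕ) (_hj : j < 4 * N) :
    ((((range (4 * N)).filter (fun j' : ℕ => ¬ (Far2 N A0 ((j : ℝ) / (4 * N : ℕ)) ((j' : ℝ) / (4 * N : ℕ)) D ∧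
      Far2 N A0 ((j : ℝ) / (4 * N : ℕ)) (-((j' : ℝ) / (4 * N : ℕ))) D))).card : ℕ) : ℝ) ≤ 200 * A0 ^ 3 * D ^ 2 := by
  have hMr : ((4 * N : ℕ) : ℝ) ≠ 0 := by
    have : (0 : ℝ) < ((4 * N : ℕ) : ℝ) := by exact_mod_cast (by omega : 0 < 4 * N)
    exact this.ne'
  set S := (range (4 * N)).filter (fun i : ℕ => DD (4 * N) ((i : ℝ) / (4 * N : ℕ)) < 4 * D) with hS
  have hSc : (S.card : ℝ) ≤ 48 * D ^ 2 := by
    have h1 := DD_count (4 * N) (by omega) (4 * D) (by linarith)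
    rw [← hS] at h1
    refine h1.trans (le_of_eq (by ring))
  -- the solutions for given `a`, `b`, `i`
  set U : ℕ → ℕ → ℕ → Finset ℕ := fun a b i =>
    (range (4 * N)).filter (fun j' : ℕ => ((4 * N : ℕ) : ℤ) ∣ ((a : ℤ) * j - i) + b * j') ∪
      (range (4 * N)).filter (fun j' : ℕ => ((4 * N : ℕ) : ℤ) ∣ (-((a : ℤ) * j - i)) + b * j') with hU
  have hUc : ∀ a b i, 1 ≤ b → (U a b i).card ≤ 2 * b := by
    intro a b i hb
    refine (card_union_le _ _).trans ?_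
    have h1 := v6_lin (4 * N) (by omega) b hb ((a : ℤ) * j - i)
    have h2 := v6_lin (4 * N) (by omega) b hb (-((a : ℤ) * j - i))
    omega
  have hsub : (range (4 * N)).filter (fun j' : ℕ => ¬ (Far2 N A0 ((j : ℝ) / (4 * N : ℕ)) ((j' : ℝ) / (4 * N : ℕ)) D ∧
      Far2 N A0 ((j : ℝ) / (4 * N : ℕ)) (-((j' : ℝ) / (4 * N : ℕ))) D)) ⊆
      (Icc 1 A0).biUnion (fun a => (Icc 1 A0).biUnion (fun b => S.biUnion (fun i => U a b i))) := by
    intro j' hj'
    rw [mem_filter] at hj'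
    obtain ⟨hj1, hj2⟩ := hj'
    simp only [mem_biUnion]
    rw [not_and_or] at hj2
    rcases hj2 with h | h
    · unfold Far2 at h
      push Not at h
      obtain ⟨a, b, ha1, ha2, hb1, hb2, hf⟩ := h
      obtain ⟨i, hi, hd⟩ := v6_near N hN D hDN ((a : ℤ) * j + b * j') _ (by push_cast; ring) hf
      refine ⟨a, mem_Icc.2 ⟨ha1, ha2⟩, b, mem_Icc.2 ⟨hb1, hb2⟩, i, hi, ?_⟩
      rw [hU, mem_union]
      left
      rw [mem_filter]
      refine ⟨hj1, ?_⟩
      have : ((a : ℤ) * j - i) + b * j' = (a : ℤ) * j + b * j' - i := by ring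
      rw [this]
      exact hd
    · unfold Far2 at h
      push Not at h
      obtain ⟨a, b, ha1, ha2, hb1, hb2, hf⟩ := h
      obtain ⟨i, hi, hd⟩ := v6_near N hN D hDN ((a : ℤ) * j - b * j') _ (by push_cast; ring) hf
      refine ⟨a, mem_Icc.2 ⟨ha1, ha2⟩, b, mem_Icc.2 ⟨hb1, hb2⟩, i, hi, ?_⟩
      rw [hU, mem_union]
      right
      rw [mem_filter]
      refine ⟨hj1, ?_⟩
      have : (-((a : ℤ) * j - i)) + b * j' = -((a : ℤ) * j - b * j' - i) := by ring
      rw [this, dvd_neg]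
      exact hd
  have h3 : (((range (4 * N)).filter (fun j' : ℕ => ¬ (Far2 N A0 ((j : ℝ) / (4 * N : ℕ)) ((j' : ℝ) / (4 * N : ℕ)) D ∧
      Far2 N A0 ((j : ℝ) / (4 * N : ℕ)) (-((j' : ℝ) / (4 * N : ℕ))) D))).card) ≤ A0 * (A0 * (S.card * (2 * A0))) := by
    refine (card_le_card hsub).trans ?_
    refine card_biUnion_le.trans ?_
    have h4 : ∀ a ∈ Icc 1 A0, ((Icc 1 A0).biUnion (fun b => S.biUnion (fun i => U a b i))).card ≤ A0 * (S.card * (2 * A0)) := by
      intro a _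
      refine card_biUnion_le.trans ?_
      have h5 : ∀ b ∈ Icc 1 A0, (S.biUnion (fun i => U a b i)).card ≤ S.card * (2 * A0) := by
        intro b hb
        rw [mem_Icc] at hb
        refine card_biUnion_le.trans ?_
        refine (Finset.sum_le_card_nsmul _ _ (2 * A0) fun i _ => (hUc a b i hb.1).trans (by omega)).trans ?_
        rw [smul_eq_mul]
      refine (Finset.sum_le_card_nsmul _ _ _ h5).trans ?_
      rw [smul_eq_mul, Nat.card_Icc, Nat.add_sub_cancel]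
    refine (Finset.sum_le_card_nsmul _ _ _ h4).trans ?_
    rw [smul_eq_mul, Nat.card_Icc, Nat.add_sub_cancel]
  have h6 : ((((range (4 * N)).filter (fun j' : ℕ => ¬ (Far2 N A0 ((j : ℝ) / (4 * N : ℕ)) ((j' : ℝ) / (4 * N : ℕ)) D ∧
      Far2 N A0 ((j : ℝ) / (4 * N : ℕ)) (-((j' : ℝ) / (4 * N : ℕ))) D))).card : ℕ) : ℝ) ≤ A0 * (A0 * (S.card * (2 * A0))) := by
    exact_mod_cast h3
  refine h6.trans ?_
  have hA : (0 : ℝ) ≤ (A0 : ℝ) ^ 3 := by positivity
  calc (A0 : ℝ) * (A0 * (S.card * (2 * A0))) = 2 * (A0 : ℝ) ^ 3 * S.card := by ring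
    _ ≤ 2 * (A0 : ℝ) ^ 3 * (48 * D ^ 2) := by gcongr
    _ ≤ 200 * (A0 : ℝ) ^ 3 * D ^ 2 := by nlinarith [sq_nonneg D, mul_nonneg hA (sq_nonneg D)]

end Pool.Agent.Helper51.EA
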